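import Pool.Agent.R832.UDF.Defs

set_option autoImplicit false

namespace Pool.Agent.R832.UDF

open scoped TensorProduct
open Polynomial

universe u v w x

/-- The algebra `k ⊕ k[x]` with `k[x] * k[x] = 0`. -/
abbrev Alg (k : Type u) [Field k] : Type u := TrivSqZeroExt k k[X]

/-- The bilinear map `φ(a, b) = a'' b''`, where `a''` is the component of `a` in `k[x]`. -/
noncomputable def phi (k : Type u) [Field k] : Alg k →ₗ[k] Alg k →ₗ[k] Alg k :=
  LinearMap.mk₂ k (fun a b => TrivSqZeroExt.inr (a.snd * b.snd))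
    (fun a a' b => by simp [add_mul])
    (fun c a b => by simp)
    (fun a b b' => by simp [mul_add])
    (fun c a b => by simp)

@[simp] lemma phi_apply {k : Type u} [Field k] (a b : Alg k) :
    phi k a b = TrivSqZeroExt.inr (a.snd * b.snd) := rfl

lemma phi_cocycle {k : Type u} [Field k] (a b c : Alg k) :
    phi k (a * b) c + phi k a b * c = phi k a (b * c) + a * phi k b c := by
  ext
  · simp
  · simp only [phi_apply, TrivSqZeroExt.snd_add, TrivSqZeroExt.snd_mul, TrivSqZeroExt.snd_inr,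
      TrivSqZeroExt.fst_inr, op_smul_eq_smul, Polynomial.smul_eq_C_mul, map_zero]
    congr 1
    ring

lemma phi_assoc {k : Type u} [Field k] (a b c : Alg k) :
    phi k (phi k a b) c = phi k a (phi k b c) := by
  simp [mul_assoc]

/-- Bilinear maps of the form `(a, b) ↦ Σ_{j < n} p_j(a) q_j(b)` with linear `p_j`, `q_j`. -/
def FinType (k : Type u) {A : Type v} [Field k] [Ring A] [Algebra k A] (f : A → A → A) : Prop :=
  ∃ (n : ℕ) (p q : Fin n → (A →ₗ[k] A)), ∀ a b, f a b = ∑ j, p j a * q j b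

section FinType

variable {k : Type u} {A : Type v} [Field k] [Ring A] [Algebra k A]

lemma FinType.zero : FinType k (fun _ _ : A => (0 : A)) :=
  ⟨0, fun _ => 0, fun _ => 0, fun a b => by simp⟩

lemma FinType.mul (p q : A →ₗ[k] A) : FinType k (fun a b => p a * q b) :=
  ⟨1, fun _ => p, fun _ => q, fun a b => by simp⟩

lemma FinType.add {f g : A → A → A} (hf : FinType k f) (hg : FinType k g) :
    FinType k (fun a b => f a b + g a b) := by
  obtain ⟨n, p, q, h⟩ := hf
  obtain ⟨m, p', q', h'⟩ := hg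
  refine ⟨n + m, Fin.append p p', Fin.append q q', fun a b => ?_⟩
  simp [h, h', Fin.sum_univ_add]

lemma FinType.smul {f : A → A → A} (hf : FinType k f) (c : k) :
    FinType k (fun a b => c • f a b) := by
  obtain ⟨n, p, q, h⟩ := hf
  exact ⟨n, fun j => c • p j, q, fun a b => by simp [h, Finset.smul_sum]⟩

end FinType

/-- The cocycle `φ` is not a sum of a coboundary and of a map of finite type. -/
theorem core {k : Type u} [Field k] (g : Alg k →ₗ[k] Alg k) (f : Alg k → Alg k → Alg k)
    (hf : FinType k f) (h : ∀ a b, g (a * b) + phi k a b = g a * b + a * g b + f a b) : False := by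
  obtain ⟨n, p, q, hpq⟩ := hf
  set π : Alg k →ₗ[k] k := TrivSqZeroExt.fstHom k k k[X] |>.toLinearMap with hπ
  have hπa : ∀ a : Alg k, π a = a.fst := fun a => rfl
  set ι : k[X] →ₗ[k] Alg k := TrivSqZeroExt.inrHom k k[X] with hι
  have hιa : ∀ u : k[X], ι u = TrivSqZeroExt.inr u := fun u => rfl
  let L : k[X] →ₗ[k] k × (Fin n → k) × (Fin n → k) :=
    (π ∘ₗ g ∘ₗ ι).prod ((LinearMap.pi fun j => π ∘ₗ p j ∘ₗ ι).prod
      (LinearMap.pi fun j => π ∘ₗ q j ∘ₗ ι))
  have hL : ¬ Function.Injective L := fun hi =>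
    Polynomial.not_finite (R := k) (Module.Finite.of_injective L hi)
  obtain ⟨u, hu, hu0⟩ : ∃ u, L u = 0 ∧ u ≠ 0 := by
    by_contra hcon
    push Not at hcon
    exact hL ((injective_iff_map_eq_zero L).2 hcon)
  have h1 : (g (TrivSqZeroExt.inr u)).fst = 0 := congrArg Prod.fst hu
  have h2 : ∀ j, (p j (TrivSqZeroExt.inr u)).fst = 0 :=
    fun j => congrFun (congrArg (fun z => z.2.1) hu) j
  have h3 : ∀ j, (q j (TrivSqZeroExt.inr u)).fst = 0 :=
    fun j => congrFun (congrArg (fun z => z.2.2) hu) j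
  have h4 := h (TrivSqZeroExt.inr u) (TrivSqZeroExt.inr u)
  rw [hpq] at h4
  have hz : ∀ a b : Alg k, a.fst = 0 → b.fst = 0 → a * b = 0 := by
    intro a b ha hb
    ext
    · simp [ha]
    · simp [ha, hb]
  rw [hz _ _ (by simp) (by simp), hz _ _ h1 (by simp), hz _ _ (by simp) h1,
    Finset.sum_eq_zero (fun j _ => hz _ _ (h2 j) (h3 j))] at h4
  have h5 := congrArg TrivSqZeroExt.snd h4
  simp at h5
  exact hu0 h5

end Pool.Agent.R832.UDF
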