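import Mathlib

/-!
# Deformations of algebras and universal deformation formulas (definitions)
-/

set_option autoImplicit false

namespace Pool.Agent.R832.UDF

open scoped TensorProduct

universe u v w x

/-! ## Bialgebra actions and twisting elements -/

section General

variable {S : Type u} {C : Type v} {M : Type w} [CommRing S] [Ring C]

/-- If the `S`-algebra `C` acts on the `S`-module `M`, then `C ⊗ C` acts on `M ⊗ M`. -/
noncomputable def act₂ [Algebra S C] [AddCommGroup M] [Module S M]
    (act : C →ₐ[S] Module.End S M) : C ⊗[S] C →ₐ[S] Module.End S (M ⊗[S] M) :=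
  (Module.endTensorEndAlgHom (R := S) (S := S) (A := S) (M := M) (N := M)).comp
    (Algebra.TensorProduct.map act act)

/-- Twisting elements `F` of an `S`-bialgebra `C`:
`[(Δ ⊗ id) F] (F ⊗ 1) = [(id ⊗ Δ) F] (1 ⊗ F)` and `(ε ⊗ id) F = 1 = (id ⊗ ε) F`. -/
structure IsTwisting (S : Type u) {C : Type v} [CommRing S] [Ring C] [Bialgebra S C]
    (F : C ⊗[S] C) : Prop where
  cocycle : Algebra.TensorProduct.assoc S S S C C C
      (Algebra.TensorProduct.map (Bialgebra.comulAlgHom S C) (AlgHom.id S C) F * (F ⊗ₜ[S] 1)) =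
    Algebra.TensorProduct.map (AlgHom.id S C) (Bialgebra.comulAlgHom S C) F * (1 ⊗ₜ[S] F)
  counit_left : Algebra.TensorProduct.lid S C
    (Algebra.TensorProduct.map (Bialgebra.counitAlgHom S C) (AlgHom.id S C) F) = 1
  counit_right : Algebra.TensorProduct.rid S S C
    (Algebra.TensorProduct.map (AlgHom.id S C) (Bialgebra.counitAlgHom S C) F) = 1

end General

/-- A `B`-module algebra structure on the `k`-algebra `A`: an action of the algebra `B` on the vector
space `A` such that `μ : A ⊗ A → A` is `B`-linear, `B` acting on `A ⊗ A` through `Δ`, and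
`b · 1 = ε(b) 1`. -/
structure ModuleAlgebra (k : Type u) (B : Type v) (A : Type w) [Field k] [Ring B] [Bialgebra k B]
    [Ring A] [Algebra k A] where
  act : B →ₐ[k] Module.End k A
  act_mul : ∀ (b : B) (z : A ⊗[k] A),
    act b (LinearMap.mul' k A z) = LinearMap.mul' k A (act₂ act (Coalgebra.comul b) z)
  act_one : ∀ b : B, act b 1 = algebraMap k A (Coalgebra.counit b)

/-! ## Deformations over a local `k`-algebra `R`

Here `R` is a local `k`-algebra with maximal ideal `I`, and `R ⊗[k] A` stands for `A ⊗ R`. It is the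
completed tensor product as soon as `R` has finite dimension over `k`. -/

section Finite

variable (k : Type u) (R : Type v) [Field k] [CommRing R] [IsLocalRing R] [Algebra k R]

/-- An `R`-deformation of the `k`-algebra `A`: an `R`-bilinear, associative multiplication on
`A ⊗ R` with unit `1` which reduces to that of `A` modulo the maximal ideal of `R`. -/
structure Deformation (A : Type w) [Ring A] [Algebra k A] where
  mul : (R ⊗[k] A) →ₗ[R] (R ⊗[k] A) →ₗ[R] (R ⊗[k] A)
  assoc : ∀ x y z, mul (mul x y) z = mul x (mul y z)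
  one_mul : ∀ x, mul 1 x = x
  mul_one : ∀ x, mul x 1 = x
  reduces : ∀ x y,
    mul x y - x * y ∈ (IsLocalRing.maximalIdeal R • ⊤ : Submodule R (R ⊗[k] A))

/-- A universal deformation formula over `R` based on the `k`-bialgebra `B`: a twisting element of
the `R`-bialgebra `B ⊗ R` which is congruent to `1 ⊗ 1` modulo the maximal ideal of `R`. -/
structure IsUDF (B : Type w) [Ring B] [Bialgebra k B] (F : (R ⊗[k] B) ⊗[R] (R ⊗[k] B)) :
    Prop where
  twisting : IsTwisting R F
  congr_one :
    F - 1 ∈ (IsLocalRing.maximalIdeal R • ⊤ : Submodule R ((R ⊗[k] B) ⊗[R] (R ⊗[k] B)))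

variable {k} {B : Type w} {A : Type x} [Ring B] [Bialgebra k B] [Ring A] [Algebra k A]

/-- The action of `B ⊗ R` on `A ⊗ R`, obtained from the action of `B` on `A` by extension of
scalars. -/
noncomputable def actR (act : B →ₐ[k] Module.End k A) :
    R ⊗[k] B →ₐ[R] Module.End R (R ⊗[k] A) :=
  (LinearMap.tensorProductEnd k R A).comp (Algebra.TensorProduct.map (AlgHom.id R R) act)

/-- The product `x * y = μ (F (x ⊗ y))` on `A ⊗ R`. -/
noncomputable def twistMul (act : B →ₐ[k] Module.End k A) (F : (R ⊗[k] B) ⊗[R] (R ⊗[k] B))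
    (x y : R ⊗[k] A) : R ⊗[k] A :=
  LinearMap.mul' R (R ⊗[k] A) (act₂ (actR R act) F (x ⊗ₜ[R] y))

variable {R}

/-- The `R`-deformation `D` of `A` is equivalent to the one given by some `B`-module algebra
structure on `A` and some universal deformation formula over `R` based on `B`: there is an
`R`-linear automorphism `e` of `A ⊗ R`, the identity modulo the maximal ideal of `R`, which carries
the first multiplication to the second. -/
def ComesFromUDF (D : Deformation k R A) (B : Type w) [Ring B] [Bialgebra k B] : Prop :=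
  ∃ (N : ModuleAlgebra k B A) (F : (R ⊗[k] B) ⊗[R] (R ⊗[k] B))
    (e : (R ⊗[k] A) ≃ₗ[R] (R ⊗[k] A)), IsUDF k R B F ∧
    (∀ x, e x - x ∈ (IsLocalRing.maximalIdeal R • ⊤ : Submodule R (R ⊗[k] A))) ∧
      ∀ x y, e (D.mul x y) = twistMul R N.act F (e x) (e y)

end Finite

/-! ## Formal deformations, `R = k[[t]]`

Here `A ⊗ R`, completed, is `A[[t]]`, and `(B ⊗ R) ⊗ (B ⊗ R)`, completed, is `(B ⊗ B)[[t]]`. -/

section Formal

open PowerSeries

variable (k : Type u) [Field k]

/-- The action of `k[[t]]` on `A[[t]]`. -/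
noncomputable def scal {A : Type v} [Ring A] [Algebra k A] (r : k⟦X⟧) (x : A⟦X⟧) : A⟦X⟧ :=
  PowerSeries.map (algebraMap k A) r * x

/-- A formal deformation of the `k`-algebra `A`: a `k[[t]]`-bilinear, associative multiplication on
`A[[t]]` with unit `1` which reduces to that of `A` modulo `t`. -/
structure FormalDeformation (A : Type v) [Ring A] [Algebra k A] where
  mul : A⟦X⟧ → A⟦X⟧ → A⟦X⟧
  add_mul : ∀ x x' y, mul (x + x') y = mul x y + mul x' y
  mul_add : ∀ x y y', mul x (y + y') = mul x y + mul x y'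
  scal_mul : ∀ (r : k⟦X⟧) (x y), mul (scal k r x) y = scal k r (mul x y)
  mul_scal : ∀ (r : k⟦X⟧) (x y), mul x (scal k r y) = scal k r (mul x y)
  assoc : ∀ x y z, mul (mul x y) z = mul x (mul y z)
  one_mul : ∀ x, mul 1 x = x
  mul_one : ∀ x, mul x 1 = x
  reduces : ∀ x y, constantCoeff (mul x y) = constantCoeff x * constantCoeff y

/-- A universal deformation formula over `k[[t]]` based on the `k`-bialgebra `B`: a power series
`F = 1 ⊗ 1 + t F_1 + t^2 F_2 + ...` with coefficients in `B ⊗ B` such that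
`[(Δ ⊗ id) F] (F ⊗ 1) = [(id ⊗ Δ) F] (1 ⊗ F)` and `(ε ⊗ id) F = 1 = (id ⊗ ε) F`. -/
structure IsFormalUDF (B : Type v) [Ring B] [Bialgebra k B] (F : (B ⊗[k] B)⟦X⟧) : Prop where
  cocycle :
    PowerSeries.map ((Algebra.TensorProduct.assoc k k k B B B : _ →ₐ[k] B ⊗[k] (B ⊗[k] B)).comp
        (Algebra.TensorProduct.map (Bialgebra.comulAlgHom k B) (AlgHom.id k B))).toRingHom F *
      PowerSeries.map ((Algebra.TensorProduct.assoc k k k B B B : _ →ₐ[k] B ⊗[k] (B ⊗[k] B)).comp
        (Algebra.TensorProduct.includeLeft : B ⊗[k] B →ₐ[k] (B ⊗[k] B) ⊗[k] B)).toRingHom F =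
    PowerSeries.map
        (Algebra.TensorProduct.map (AlgHom.id k B) (Bialgebra.comulAlgHom k B)).toRingHom F *
      PowerSeries.map
        (Algebra.TensorProduct.includeRight : B ⊗[k] B →ₐ[k] B ⊗[k] (B ⊗[k] B)).toRingHom F
  counit_left : PowerSeries.map ((Algebra.TensorProduct.lid k B : _ →ₐ[k] B).comp
    (Algebra.TensorProduct.map (Bialgebra.counitAlgHom k B) (AlgHom.id k B))).toRingHom F = 1
  counit_right : PowerSeries.map ((Algebra.TensorProduct.rid k k B : _ →ₐ[k] B).comp
    (Algebra.TensorProduct.map (AlgHom.id k B) (Bialgebra.counitAlgHom k B))).toRingHom F = 1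
  congr_one : constantCoeff F = 1

variable {k} {A : Type v} [Ring A] [Algebra k A]

/-- The product `x * y = μ (F (x ⊗ y))` on `A[[t]]`, that is
`(x * y)_n = Σ_{i + j + l = n} μ (F_i (x_j ⊗ y_l))`. -/
noncomputable def formalTwistMul {B : Type w} [Ring B] [Bialgebra k B]
    (act : B →ₐ[k] Module.End k A) (F : (B ⊗[k] B)⟦X⟧) (x y : A⟦X⟧) : A⟦X⟧ :=
  PowerSeries.mk fun n => ∑ p ∈ Finset.HasAntidiagonal.antidiagonal n,
    ∑ q ∈ Finset.HasAntidiagonal.antidiagonal p.2,
    LinearMap.mul' k A (act₂ act (coeff p.1 F) (coeff q.1 x ⊗ₜ[k] coeff q.2 y))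

/-- The formal deformation `D` of `A` is equivalent to the one given by some `B`-module algebra
structure on `A` and some universal deformation formula over `k[[t]]` based on `B`: there is a
`k[[t]]`-linear automorphism `e` of `A[[t]]`, the identity modulo `t`, which carries the first
multiplication to the second. -/
def FormalComesFromUDF (D : FormalDeformation k A) (B : Type w) [Ring B] [Bialgebra k B] : Prop :=
  ∃ (N : ModuleAlgebra k B A) (F : (B ⊗[k] B)⟦X⟧) (e : A⟦X⟧ ≃+ A⟦X⟧), IsFormalUDF k B F ∧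
    (∀ (r : k⟦X⟧) (x), e (scal k r x) = scal k r (e x)) ∧
    (∀ x, constantCoeff (e x) = constantCoeff x) ∧
      ∀ x y, e (D.mul x y) = formalTwistMul N.act F (e x) (e y)

end Formal

end Pool.Agent.R832.UDF
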