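import Pool.Agent.R832.UDF.Core

set_option autoImplicit false

namespace Pool.Agent.R832.UDF

open scoped TensorProduct
open Polynomial

universe u v w x

/-- Augmentation data of `R`: the algebra map `R → k` and a linear functional which is a derivation
at the closed point, with value `1` at an element `t` of the maximal ideal. -/
structure Tangent (k : Type u) (R : Type v) [Field k] [CommRing R] [IsLocalRing R]
    [Algebra k R] where
  aug : R →ₐ[k] k
  aug_max : ∀ r ∈ IsLocalRing.maximalIdeal R, aug r = 0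
  t : R
  t_mem : t ∈ IsLocalRing.maximalIdeal R
  lam : R →ₗ[k] k
  lam_mul : ∀ r s, lam (r * s) = aug r * lam s + lam r * aug s
  lam_t : lam t = 1

section

variable {k : Type u} {R : Type v} [Field k] [CommRing R] [IsLocalRing R] [Algebra k R]

lemma exists_tangent [IsNoetherianRing R]
    (hres : Function.Bijective (algebraMap k (IsLocalRing.ResidueField R))) (hR : ¬ IsField R) :
    Nonempty (Tangent k R) := by
  classical
  set I := IsLocalRing.maximalIdeal R with hI
  -- the augmentation
  let E : k ≃ₐ[k] IsLocalRing.ResidueField R :=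
    AlgEquiv.ofBijective (Algebra.ofId k (IsLocalRing.ResidueField R)) hres
  let res : R →ₐ[k] IsLocalRing.ResidueField R := IsScalarTower.toAlgHom k R _
  let aug : R →ₐ[k] k := (E.symm : _ →ₐ[k] k).comp res
  have haug : ∀ r, aug r = 0 ↔ r ∈ I := by
    intro r
    have h1 : aug r = E.symm (res r) := rfl
    rw [h1, map_eq_zero_iff _ E.symm.injective]
    exact IsLocalRing.residue_eq_zero_iff r
  -- the element `t`
  have hI0 : I ≠ ⊥ := fun h => hR (IsLocalRing.isField_iff_maximalIdeal_eq.2 h)
  have hlt : ¬ I ≤ I ^ 2 := by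
    intro hle
    apply hI0
    have hfg : I.FG := IsNoetherian.noetherian I
    refine Submodule.eq_bot_of_le_smul_of_le_jacobson_bot I I hfg ?_ ?_
    · rw [smul_eq_mul, ← pow_two]; exact hle
    · rw [IsLocalRing.jacobson_eq_maximalIdeal ⊥ bot_ne_top]
  obtain ⟨t, htI, ht2⟩ := Set.not_subset.1 hlt
  -- the functional
  let W : Submodule k R := (Submodule.restrictScalars k (I ^ 2)) ⊔ Submodule.span k {1}
  have htW : t ∉ W := by
    intro h
    obtain ⟨i, hi, j, hj, hij⟩ := Submodule.mem_sup.1 h
    obtain ⟨c, rfl⟩ := Submodule.mem_span_singleton.1 hj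
    have hi' : i ∈ I ^ 2 := hi
    have h1 : aug t = 0 := (haug t).2 htI
    have h2 : aug i = 0 := (haug i).2 (Ideal.pow_le_self two_ne_zero hi')
    rw [← hij, map_add, h2, map_smul, map_one, zero_add, smul_eq_mul, mul_one] at h1
    rw [h1, zero_smul, add_zero] at hij
    exact ht2 (hij ▸ hi')
  obtain ⟨f, hft, hfW⟩ := Submodule.exists_le_ker_of_notMem htW
  have hf1 : f 1 = 0 := hfW (Submodule.mem_sup_right (Submodule.mem_span_singleton_self 1))
  have hf2 : ∀ r ∈ I ^ 2, f r = 0 := fun r hr => hfW (Submodule.mem_sup_left hr)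
  have key : ∀ r s, f (r * s) = aug r * f s + f r * aug s := by
    intro r s
    have hr : r - aug r • (1 : R) ∈ I := by
      rw [← haug, map_sub, map_smul, map_one, smul_eq_mul, mul_one, sub_self]
    have hs : s - aug s • (1 : R) ∈ I := by
      rw [← haug, map_sub, map_smul, map_one, smul_eq_mul, mul_one, sub_self]
    have h1 := hf2 _ (by rw [pow_two]; exact Ideal.mul_mem_mul hr hs)
    have h2 : (r - aug r • (1 : R)) * (s - aug s • (1 : R)) =
        r * s - aug r • s - aug s • r + (aug r * aug s) • (1 : R) := by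
      simp only [sub_mul, mul_sub, smul_mul_assoc, one_mul, mul_smul_comm, mul_one, smul_sub,
        smul_smul]
      rw [mul_comm (aug s) (aug r)]
      abel
    rw [h2, map_add, map_sub, map_sub, map_smul, map_smul, map_smul, hf1, smul_eq_mul, smul_eq_mul,
      smul_eq_mul, mul_zero, add_zero] at h1
    linear_combination h1
  refine ⟨⟨aug, fun r hr => (haug r).2 hr, t, htI, (f t)⁻¹ • f, fun r s => ?_, ?_⟩⟩
  · simp only [LinearMap.smul_apply, smul_eq_mul, key]
    ring
  · simp [inv_mul_cancel₀ hft]

variable (T : Tangent k R) {A : Type w} [Ring A] [Algebra k A]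

/-- Reduction modulo the maximal ideal. -/
noncomputable def Tangent.red : R ⊗[k] A →ₐ[k] A :=
  ((Algebra.TensorProduct.lid k A : k ⊗[k] A →ₐ[k] A)).comp
    (Algebra.TensorProduct.map T.aug (AlgHom.id k A))

/-- The map `λ ⊗ id`. -/
noncomputable def Tangent.sec : R ⊗[k] A →ₗ[k] A :=
  (TensorProduct.lid k A : k ⊗[k] A →ₗ[k] A) ∘ₗ LinearMap.rTensor A T.lam

@[simp] lemma Tangent.red_tmul (r : R) (a : A) : T.red (r ⊗ₜ[k] a) = T.aug r • a := by
  simp [Tangent.red]

@[simp] lemma Tangent.sec_tmul (r : R) (a : A) : T.sec (r ⊗ₜ[k] a) = T.lam r • a := by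
  simp [Tangent.sec]

lemma Tangent.sec_mul (z w : R ⊗[k] A) : T.sec (z * w) = T.red z * T.sec w + T.sec z * T.red w := by
  induction z using TensorProduct.induction_on with
  | zero => simp
  | add z z' hz hz' => rw [add_mul, map_add, hz, hz', map_add, map_add]; noncomm_ring
  | tmul r a =>
    induction w using TensorProduct.induction_on with
    | zero => simp
    | add w w' hw hw' => rw [mul_add, map_add, hw, hw', map_add, map_add]; noncomm_ring
    | tmul s b =>
      simp only [Algebra.TensorProduct.tmul_mul_tmul, Tangent.sec_tmul, Tangent.red_tmul, T.lam_mul,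
        add_smul, smul_mul_smul_comm]

lemma Tangent.red_smul (r : R) (z : R ⊗[k] A) : T.red (r • z) = T.aug r • T.red z := by
  induction z using TensorProduct.induction_on with
  | zero => simp
  | add z z' hz hz' => rw [smul_add, map_add, hz, hz', map_add, smul_add]
  | tmul s a => simp [TensorProduct.smul_tmul', mul_smul]

lemma Tangent.sec_smul (r : R) (z : R ⊗[k] A) :
    T.sec (r • z) = T.aug r • T.sec z + T.lam r • T.red z := by
  induction z using TensorProduct.induction_on with
  | zero => simp
  | add z z' hz hz' => rw [smul_add, map_add, hz, hz', map_add, map_add, smul_add, smul_add]; abel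
  | tmul s a =>
    simp only [TensorProduct.smul_tmul', Tangent.sec_tmul, Tangent.red_tmul, smul_eq_mul, T.lam_mul,
      add_smul, mul_smul]

lemma Tangent.red_eq_zero {z : R ⊗[k] A}
    (hz : z ∈ (IsLocalRing.maximalIdeal R • ⊤ : Submodule R (R ⊗[k] A))) : T.red z = 0 := by
  refine Submodule.smul_induction_on hz ?_ ?_
  · intro r hr n _
    rw [T.red_smul, T.aug_max r hr, zero_smul]
  · intro a b ha hb
    rw [map_add, ha, hb, add_zero]

end

/-! ## The deformation -/

section

variable {k : Type u} {R : Type v} [Field k] [CommRing R] [Algebra k R]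

/-- The product `x * y + t φ(x, y)`. -/
noncomputable def dmul (t : R) :
    (R ⊗[k] Alg k) →ₗ[R] (R ⊗[k] Alg k) →ₗ[R] (R ⊗[k] Alg k) :=
  LinearMap.mul R (R ⊗[k] Alg k) + t • LinearMap.BilinMap.baseChange R (phi k)

lemma dmul_tmul (t r s : R) (a b : Alg k) :
    dmul t (r ⊗ₜ[k] a) (s ⊗ₜ[k] b) = (r * s) ⊗ₜ[k] (a * b) + (t * (r * s)) ⊗ₜ[k] phi k a b := by
  simp [dmul, TensorProduct.smul_tmul']

lemma dmul_assoc (t : R) (x y z : R ⊗[k] Alg k) :
    dmul t (dmul t x y) z = dmul t x (dmul t y z) := by
  induction x using TensorProduct.induction_on with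
  | zero => simp
  | add x x' hx hx' => simp only [map_add, LinearMap.add_apply, hx, hx']
  | tmul r a =>
    induction y using TensorProduct.induction_on with
    | zero => simp
    | add y y' hy hy' => simp only [map_add, LinearMap.add_apply, hy, hy']
    | tmul s b =>
      induction z using TensorProduct.induction_on with
      | zero => simp
      | add z z' hz hz' => simp only [map_add, hz, hz']
      | tmul q c =>
        rw [dmul_tmul, dmul_tmul]
        rw [map_add, map_add, LinearMap.add_apply, dmul_tmul, dmul_tmul, dmul_tmul, dmul_tmul]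
        have h1 := phi_cocycle a b c
        have h2 := phi_assoc a b c
        have e1 : (t * (r * s * q)) ⊗ₜ[k] phi k (a * b) c + (t * (r * s) * q) ⊗ₜ[k] (phi k a b * c) =
            (t * (r * s * q)) ⊗ₜ[k] (phi k (a * b) c + phi k a b * c) := by
          rw [TensorProduct.tmul_add, mul_assoc t]
        have e2 : (t * (r * (s * q))) ⊗ₜ[k] phi k a (b * c) +
            (r * (t * (s * q))) ⊗ₜ[k] (a * phi k b c) =
            (t * (r * s * q)) ⊗ₜ[k] (phi k a (b * c) + a * phi k b c) := by
          rw [TensorProduct.tmul_add]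
          congr 2
          · ring
          · ring
        have e3 : (t * (t * (r * s) * q)) ⊗ₜ[k] phi k (phi k a b) c =
            (t * (r * (t * (s * q)))) ⊗ₜ[k] phi k a (phi k b c) := by
          rw [h2]
          congr 1
          ring
        have key : (t * (r * s * q)) ⊗ₜ[k] phi k (a * b) c +
            (t * (r * s) * q) ⊗ₜ[k] (phi k a b * c) = (t * (r * (s * q))) ⊗ₜ[k] phi k a (b * c) +
            (r * (t * (s * q))) ⊗ₜ[k] (a * phi k b c) := by
          rw [e2, ← h1, ← e1]
        rw [e3, mul_assoc r s q, mul_assoc a b c]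
        rw [mul_assoc r s q] at key
        rw [add_assoc, add_assoc, ← add_assoc ((t * (r * (s * q))) ⊗ₜ[k] phi k (a * b) c), key,
          add_assoc]

lemma phi_one_left (a : Alg k) : phi k 1 a = 0 := by simp

lemma phi_one_right (a : Alg k) : phi k a 1 = 0 := by simp

lemma dmul_one_left (t : R) (x : R ⊗[k] Alg k) : dmul t 1 x = x := by
  induction x using TensorProduct.induction_on with
  | zero => simp
  | add x x' hx hx' => rw [map_add, hx, hx']
  | tmul r a =>
    rw [Algebra.TensorProduct.one_def, dmul_tmul, phi_one_left, TensorProduct.tmul_zero, add_zero,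
      one_mul, one_mul]

lemma dmul_one_right (t : R) (x : R ⊗[k] Alg k) : dmul t x 1 = x := by
  induction x using TensorProduct.induction_on with
  | zero => simp
  | add x x' hx hx' => rw [map_add, LinearMap.add_apply, hx, hx']
  | tmul r a =>
    rw [Algebra.TensorProduct.one_def, dmul_tmul, phi_one_right, TensorProduct.tmul_zero, add_zero,
      mul_one, mul_one]

variable [IsLocalRing R]

/-- The deformation of `k ⊕ k[x]` with product `a * b = ab + t φ(a, b)`. -/
noncomputable def deform (t : R) (ht : t ∈ IsLocalRing.maximalIdeal R) :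
    Deformation k R (Alg k) where
  mul := dmul t
  assoc := dmul_assoc t
  one_mul := dmul_one_left t
  mul_one := dmul_one_right t
  reduces x y := by
    have : dmul t x y - x * y = t • LinearMap.BilinMap.baseChange R (phi k) x y := by
      simp [dmul]
    rw [this]
    exact Submodule.smul_mem_smul ht Submodule.mem_top

/-- The action of an element of `(B ⊗ R) ⊗ (B ⊗ R)` is of finite type modulo the maximal ideal. -/
lemma finType_red (T : Tangent k R) {A : Type w} [Ring A] [Algebra k A] {B : Type x} [Ring B]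
    [Bialgebra k B] (act : B →ₐ[k] Module.End k A) (ξ : A →ₗ[k] R ⊗[k] A)
    (G : (R ⊗[k] B) ⊗[R] (R ⊗[k] B)) :
    FinType k (fun a b : A => T.red (twistMul R act G (ξ a) (ξ b))) := by
  induction G using TensorProduct.induction_on with
  | zero => simpa [twistMul] using FinType.zero (k := k) (A := A)
  | add G G' hG hG' =>
    have h := hG.add hG'
    simpa [twistMul] using h
  | tmul c c' =>
    have h := FinType.mul (k := k) (A := A)
      (T.red.toLinearMap ∘ₗ ((actR R act c).restrictScalars k) ∘ₗ ξ)
      (T.red.toLinearMap ∘ₗ ((actR R act c').restrictScalars k) ∘ₗ ξ)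
    have h2 : (fun a b : A => T.red (twistMul R act (c ⊗ₜ[R] c') (ξ a) (ξ b))) =
        (fun a b : A => (T.red.toLinearMap ∘ₗ ((actR R act c).restrictScalars k) ∘ₗ ξ) a *
          (T.red.toLinearMap ∘ₗ ((actR R act c').restrictScalars k) ∘ₗ ξ) b) := by
      funext a b
      simp [twistMul, act₂, Module.endTensorEndAlgHom_apply]
    rw [h2]
    exact h

lemma finType_sec (T : Tangent k R) {A : Type w} [Ring A] [Algebra k A] {B : Type x} [Ring B]
    [Bialgebra k B] (act : B →ₐ[k] Module.End k A) (ξ : A →ₗ[k] R ⊗[k] A)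
    {G : (R ⊗[k] B) ⊗[R] (R ⊗[k] B)} (hG : G ∈ (IsLocalRing.maximalIdeal R • ⊤ :
      Submodule R ((R ⊗[k] B) ⊗[R] (R ⊗[k] B)))) :
    FinType k (fun a b : A => T.sec (twistMul R act G (ξ a) (ξ b))) := by
  refine Submodule.smul_induction_on hG ?_ ?_
  · intro r hr n _
    have h := (finType_red T act ξ n).smul (T.lam r)
    have h2 : (fun a b : A => T.sec (twistMul R act (r • n) (ξ a) (ξ b))) =
        fun a b : A => T.lam r • T.red (twistMul R act n (ξ a) (ξ b)) := by
      funext a b
      have : twistMul R act (r • n) (ξ a) (ξ b) = r • twistMul R act n (ξ a) (ξ b) := by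
        simp [twistMul]
      rw [this, T.sec_smul, T.aug_max r hr, zero_smul, zero_add]
    rw [h2]
    exact h
  · intro G G' hG hG'
    have h := hG.add hG'
    simpa [twistMul] using h

/-- The deformation `a * b = ab + t φ(a, b)` does not come from a universal deformation formula. -/
theorem not_comes (T : Tangent k R) (B : Type x) [Ring B] [Bialgebra k B] :
    ¬ ComesFromUDF (deform (k := k) T.t T.t_mem) B := by
  rintro ⟨N, F, e, hF, he, heq⟩
  -- `F = 1 + G`
  obtain ⟨G, hG, rfl⟩ : ∃ G, G ∈ (IsLocalRing.maximalIdeal R • ⊤ :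
      Submodule R ((R ⊗[k] B) ⊗[R] (R ⊗[k] B))) ∧ F = 1 + G := ⟨F - 1, hF.congr_one, by abel⟩
  have hred : ∀ x, T.red (e x) = T.red x := by
    intro x
    have h := T.red_eq_zero (he x)
    rwa [map_sub, sub_eq_zero] at h
  let inc : Alg k →ₗ[k] R ⊗[k] Alg k := TensorProduct.mk k R (Alg k) 1
  let ξ : Alg k →ₗ[k] R ⊗[k] Alg k := (e.toLinearMap.restrictScalars k) ∘ₗ inc
  have hξ : ∀ a, e (1 ⊗ₜ[k] a) = ξ a := fun a => rfl
  have hξr : ∀ a, T.red (ξ a) = a := by
    intro a
    rw [← hξ, hred, T.red_tmul, map_one, one_smul]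
  refine core (T.sec ∘ₗ ξ) _ (finType_sec T N.act ξ hG) fun a b => ?_
  have h1 := congrArg T.sec (heq (1 ⊗ₜ[k] a) (1 ⊗ₜ[k] b))
  have h2 : (deform (k := k) T.t T.t_mem).mul (1 ⊗ₜ[k] a) (1 ⊗ₜ[k] b) =
      1 ⊗ₜ[k] (a * b) + T.t • (1 ⊗ₜ[k] phi k a b) := by
    change dmul T.t _ _ = _
    rw [dmul_tmul, mul_one, mul_one, TensorProduct.smul_tmul', smul_eq_mul, mul_one]
  have h3 : twistMul R N.act (1 + G) (e (1 ⊗ₜ[k] a)) (e (1 ⊗ₜ[k] b)) =
      ξ a * ξ b + twistMul R N.act G (ξ a) (ξ b) := by
    rw [hξ, hξ]
    simp [twistMul]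
  rw [h2, h3, map_add, map_smul, map_add, hξ, hξ, T.sec_smul, T.aug_max _ T.t_mem, zero_smul,
    zero_add, T.lam_t, one_smul, hξr, map_add, T.sec_mul, hξr, hξr] at h1
  change T.sec (ξ (a * b)) + phi k a b =
    T.sec (ξ a) * b + a * T.sec (ξ b) + T.sec (twistMul R N.act G (ξ a) (ξ b))
  rw [h1]
  abel

end

end Pool.Agent.R832.UDF
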