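import Pool.Agent.R832.UDF.Core

set_option autoImplicit false

namespace Pool.Agent.R832.UDF

open scoped TensorProduct
open PowerSeries

universe u v w x

section

variable {k : Type u} [Field k]

/-- The component in `k[x]`, coefficientwise. -/
noncomputable def sig (x : (Alg k)⟦X⟧) : (Polynomial k)⟦X⟧ := mk fun n => (coeff n x).snd

/-- The component in `k`, coefficientwise, as a series over `k[x]`. -/
noncomputable def pic (x : (Alg k)⟦X⟧) : (Polynomial k)⟦X⟧ :=
  mk fun n => Polynomial.C (coeff n x).fst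

/-- The inclusion of `k[x]`, coefficientwise. -/
noncomputable def inj (u : (Polynomial k)⟦X⟧) : (Alg k)⟦X⟧ :=
  mk fun n => TrivSqZeroExt.inr (coeff n u)

lemma sig_add (x y : (Alg k)⟦X⟧) : sig (x + y) = sig x + sig y := by
  ext n : 1; simp [sig]

lemma pic_add (x y : (Alg k)⟦X⟧) : pic (x + y) = pic x + pic y := by
  ext n : 1; simp [pic]

lemma inj_add (x y : (Polynomial k)⟦X⟧) : inj (x + y) = inj x + inj y := by
  ext n : 1; simp [inj]

@[simp] lemma sig_inj (u : (Polynomial k)⟦X⟧) : sig (inj u) = u := by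
  ext n : 1; simp [sig, inj]

@[simp] lemma pic_inj (u : (Polynomial k)⟦X⟧) : pic (inj u) = 0 := by
  ext n : 1; simp [pic, inj]

lemma sig_X_mul (x : (Alg k)⟦X⟧) : sig (X * x) = X * sig x := by
  ext n : 1
  cases n with
  | zero => simp [sig]
  | succ n => simp [sig, coeff_succ_X_mul]

lemma pic_X_mul (x : (Alg k)⟦X⟧) : pic (X * x) = X * pic x := by
  ext n : 1
  cases n with
  | zero => simp [pic]
  | succ n => simp [pic, coeff_succ_X_mul]

lemma sig_mul (x y : (Alg k)⟦X⟧) : sig (x * y) = pic x * sig y + sig x * pic y := by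
  ext n : 1
  simp only [sig, pic, map_add, coeff_mk, coeff_mul, TrivSqZeroExt.snd_sum, TrivSqZeroExt.snd_mul,
    Finset.sum_add_distrib, op_smul_eq_smul, Polynomial.smul_eq_C_mul]
  congr 1
  exact Finset.sum_congr rfl fun p _ => mul_comm _ _

lemma pic_mul (x y : (Alg k)⟦X⟧) : pic (x * y) = pic x * pic y := by
  ext n : 1
  simp only [pic, coeff_mk, coeff_mul, TrivSqZeroExt.fst_sum, TrivSqZeroExt.fst_mul, map_sum,
    Polynomial.C_mul]

lemma inj_mul (u : (Polynomial k)⟦X⟧) (x : (Alg k)⟦X⟧) : inj u * x = inj (u * pic x) := by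
  ext n : 1
  rw [coeff_mul]
  simp only [inj, pic, coeff_mk, coeff_mul]
  ext : 1
  · simp [TrivSqZeroExt.fst_sum]
  · simp only [TrivSqZeroExt.snd_sum, TrivSqZeroExt.snd_mul, TrivSqZeroExt.fst_inr,
      TrivSqZeroExt.snd_inr, zero_smul, zero_add, op_smul_eq_smul, Polynomial.smul_eq_C_mul]
    exact Finset.sum_congr rfl fun p _ => mul_comm _ _

lemma X_mul_inj (u : (Polynomial k)⟦X⟧) : (X : (Alg k)⟦X⟧) * inj u = inj (X * u) := by
  ext n : 1
  cases n with
  | zero => simp [inj]
  | succ n => simp [inj, coeff_succ_X_mul]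

/-- The product `x * y + t φ(x, y)` on `A[[t]]`. -/
noncomputable def fmul (x y : (Alg k)⟦X⟧) : (Alg k)⟦X⟧ := x * y + inj (X * (sig x * sig y))

lemma fmul_def (x y : (Alg k)⟦X⟧) : fmul x y = x * y + inj (X * (sig x * sig y)) := rfl

lemma sig_fmul (x y : (Alg k)⟦X⟧) :
    sig (fmul x y) = pic x * sig y + sig x * pic y + X * (sig x * sig y) := by
  rw [fmul_def, sig_add, sig_inj, sig_mul]

lemma fmul_assoc (x y z : (Alg k)⟦X⟧) : fmul (fmul x y) z = fmul x (fmul y z) := by
  have h1 : fmul (fmul x y) z = x * y * z + inj (X * (sig x * sig y) * pic z +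
      X * ((pic x * sig y + sig x * pic y + X * (sig x * sig y)) * sig z)) := by
    rw [fmul_def (fmul x y) z, sig_fmul, fmul_def x y, add_mul, inj_mul, add_assoc, ← inj_add]
  have h2 : fmul x (fmul y z) = x * (y * z) + inj (X * (sig y * sig z) * pic x +
      X * (sig x * (pic y * sig z + sig y * pic z + X * (sig y * sig z)))) := by
    rw [fmul_def x (fmul y z), sig_fmul, fmul_def y z, mul_add, mul_comm x (inj _), inj_mul,
      add_assoc, ← inj_add]
  rw [h1, h2, mul_assoc]
  have h3 : X * (sig x * sig y) * pic z +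
      X * ((pic x * sig y + sig x * pic y + X * (sig x * sig y)) * sig z) =
      X * (sig y * sig z) * pic x +
      X * (sig x * (pic y * sig z + sig y * pic z + X * (sig y * sig z))) := by ring
  rw [h3]

lemma scal_eq (r : k⟦X⟧) (x : (Alg k)⟦X⟧) : scal k r x = PowerSeries.map (algebraMap k _) r * x :=
  rfl

lemma sig_map (r : k⟦X⟧) : sig (PowerSeries.map (algebraMap k (Alg k)) r) = 0 := by
  ext n : 1
  simp [sig, TrivSqZeroExt.algebraMap_eq_inl]

lemma constantCoeff_inj_X_mul (u : (Polynomial k)⟦X⟧) : constantCoeff (inj (X * u)) = 0 := by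
  rw [← X_mul_inj]; simp

/-- The formal deformation of `k ⊕ k[x]` with product `a * b = ab + t φ(a, b)`. -/
noncomputable def formal (k : Type u) [Field k] : FormalDeformation k (Alg k) where
  mul := fmul
  add_mul x x' y := by simp only [fmul, sig_add, add_mul, mul_add, inj_add]; abel
  mul_add x y y' := by simp only [fmul, sig_add, mul_add, inj_add]; abel
  scal_mul r x y := by
    simp only [fmul, scal_eq, mul_add, sig_mul, sig_map, zero_mul, add_zero]
    rw [mul_assoc, mul_comm _ (inj _), inj_mul]
    congr 2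
    ring
  mul_scal r x y := by
    simp only [fmul, scal_eq, mul_add, sig_mul, sig_map, zero_mul, add_zero]
    rw [mul_left_comm, mul_comm _ (inj _), inj_mul]
    congr 2
    ring
  assoc := fmul_assoc
  one_mul x := by
    have : sig (1 : (Alg k)⟦X⟧) = 0 := by
      have := sig_map (k := k) 1
      rwa [map_one] at this
    rw [fmul, this, zero_mul, mul_zero, one_mul]
    have : inj (0 : (Polynomial k)⟦X⟧) = 0 := by ext n : 1; simp [inj]
    rw [this, add_zero]
  mul_one x := by
    have : sig (1 : (Alg k)⟦X⟧) = 0 := by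
      have := sig_map (k := k) 1
      rwa [map_one] at this
    rw [fmul, this, mul_zero, mul_zero, mul_one]
    have : inj (0 : (Polynomial k)⟦X⟧) = 0 := by ext n : 1; simp [inj]
    rw [this, add_zero]
  reduces x y := by
    rw [fmul, map_add, constantCoeff_inj_X_mul, add_zero, map_mul]

lemma sig_C (a : Alg k) : sig (C a) = C a.snd := by
  ext n : 1
  cases n with
  | zero => simp [sig]
  | succ n => simp [sig, coeff_succ_C]

lemma inj_C (u : Polynomial k) : inj (C u) = C (TrivSqZeroExt.inr u) := by
  ext n : 1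
  cases n with
  | zero => simp [inj]
  | succ n => simp [inj, coeff_succ_C]

lemma fmul_C (a b : Alg k) : fmul (C a) (C b) = C (a * b) + scal k X (C (phi k a b)) := by
  have h1 : C (phi k a b) = inj (C (a.snd * b.snd)) := by rw [inj_C, phi_apply]
  rw [fmul_def, h1, sig_C, sig_C, ← X_mul_inj, scal_eq, PowerSeries.map_X, map_mul, map_mul]

lemma finType_act {A : Type w} [Ring A] [Algebra k A] {B : Type x} [Ring B]
    [Bialgebra k B] (act : B →ₐ[k] Module.End k A) (G : B ⊗[k] B) :
    FinType k (fun a b : A => LinearMap.mul' k A (act₂ act G (a ⊗ₜ b))) := by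
  induction G using TensorProduct.induction_on with
  | zero => simpa using FinType.zero (k := k) (A := A)
  | add G G' hG hG' =>
    have h := hG.add hG'
    simpa using h
  | tmul c c' =>
    have h := FinType.mul (k := k) (A := A) (act c) (act c')
    have h2 : (fun a b : A => LinearMap.mul' k A (act₂ act (c ⊗ₜ[k] c') (a ⊗ₜ b))) =
        (fun a b : A => act c a * act c' b) := by
      funext a b
      simp [act₂, Module.endTensorEndAlgHom_apply]
    rw [h2]
    exact h

/-- The formal deformation `a * b = ab + t φ(a, b)` does not come from a universal deformation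
formula. -/
theorem not_comes_formal (B : Type x) [Ring B] [Bialgebra k B] :
    ¬ FormalComesFromUDF (formal k) B := by
  rintro ⟨N, F, e, hF, hlin, he, heq⟩
  have hC : ∀ (c : k) (a : Alg k), (C (c • a) : (Alg k)⟦X⟧) = scal k (C c) (C a) := by
    intro c a
    rw [scal_eq, PowerSeries.map_C, ← map_mul, Algebra.smul_def]
  have hsc : ∀ (c : k) (y : (Alg k)⟦X⟧) (n : ℕ), coeff n (scal k (C c) y) = c • coeff n y := by
    intro c y n
    rw [scal_eq, PowerSeries.map_C, coeff_C_mul, Algebra.smul_def]
  let g : Alg k →ₗ[k] Alg k :=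
    { toFun := fun a => coeff 1 (e (C a))
      map_add' := fun a b => by rw [map_add, map_add, map_add]
      map_smul' := fun c a => by rw [hC, hlin, hsc]; rfl }
  have hg : ∀ a, coeff 1 (e (C a)) = g a := fun a => rfl
  have h0 : ∀ a, coeff 0 (e (C a)) = a := by
    intro a
    rw [coeff_zero_eq_constantCoeff_apply, he, constantCoeff_C]
  refine core g _ (finType_act N.act (coeff 1 F)) fun a b => ?_
  have h1 := congrArg (coeff 1) (heq (C a) (C b))
  have h2 : (formal k).mul (C a) (C b) = C (a * b) + scal k X (C (phi k a b)) := by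
    exact fmul_C a b
  have h3 : coeff 1 (formalTwistMul N.act F (e (C a)) (e (C b))) =
      g a * b + a * g b + LinearMap.mul' k _ (act₂ N.act (coeff 1 F) (a ⊗ₜ b)) := by
    rw [formalTwistMul, coeff_mk]
    have hF0 : coeff 0 F = 1 := by
      rw [coeff_zero_eq_constantCoeff_apply, hF.congr_one]
    have hone : ∀ u v : Alg k, LinearMap.mul' k (Alg k) (act₂ N.act 1 (u ⊗ₜ[k] v)) = u * v := by
      intro u v
      rw [map_one]
      exact LinearMap.mul'_apply
    have e1 : Finset.HasAntidiagonal.antidiagonal (1 : ℕ) = {(0, 1), (1, 0)} := rfl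
    have e0 : Finset.HasAntidiagonal.antidiagonal (0 : ℕ) = {(0, 0)} := rfl
    rw [e1, Finset.sum_pair (by simp)]
    simp only [e0, e1]
    rw [Finset.sum_pair (by simp), Finset.sum_singleton, hF0, hone, hone, h0, h0, hg, hg,
      add_comm (a * g b)]
  rw [h3, h2, map_add, hlin, map_add, scal_eq, PowerSeries.map_X] at h1
  have h4 : coeff 1 (X * e (C (phi k a b))) = phi k a b := by
    rw [show (1 : ℕ) = 0 + 1 from rfl, coeff_succ_X_mul, h0]
  rw [h4, hg] at h1
  exact h1

end

end Pool.Agent.R832.UDF
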